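import Pool.Agent.EH11.Step

/-!
# Theorem E and the even half
-/

namespace Pool.Agent.EH11

open Finset

variable {α : Type*} [DecidableEq α]

theorem ch_natCast (n i : ℕ) : ch n (i : ℤ) = (n.choose i : ℕ) := by
  unfold ch
  simp

theorem choose_mid {n b : ℕ} (h1 : n ≤ 2 * b) (h2 : 2 * b ≤ n + 1) :
    n.choose (n / 2) = n.choose b := by
  rcases Nat.lt_or_ge n (2 * b) with h | h
  · have e : n - b = n / 2 := by omega
    rw [← e, Nat.choose_symm (by omega)]
  · have e : n / 2 = b := by omega
    rw [e]

/-- **Theorem E**, integer form. Two antichains with all cross distances at most `a + b < n`: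
if the first has at least `C(n, a)` members, then the second has at most `C(n, b)` members. -/
theorem theoremE {V : Finset α} {A B : Finset (Finset α)} (hA : On V A) (hB : On V B)
    (cA : AC A) (cB : AC B) {a b : ℕ} (ha : 2 * a ≤ V.card) (hb : 2 * b ≤ V.card + 1)
    (hD : a + b < V.card) (hAB : Cross ((a : ℤ) + b) A B) (hu : V.card.choose a ≤ A.card) :
    B.card ≤ V.card.choose b := by
  rcases Nat.lt_or_ge (2 * b) V.card with hb2 | hb2
  · by_contra hcon
    push Not at hcon
    have nA : A.Nonempty := by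
      rw [← Finset.card_pos]
      exact lt_of_lt_of_le (Nat.choose_pos (by omega)) hu
    have nB : B.Nonempty := by
      rw [← Finset.card_pos]
      omega
    have h0 : ch V.card (a : ℤ) ≤ A.card := by rw [ch_natCast]; exact_mod_cast hu
    have h1 : ch V.card (b : ℤ) < B.card := by rw [ch_natCast]; exact_mod_cast hcon
    have h2 : ch V.card ((a : ℤ) - 1) ≤ ch V.card (a : ℤ) :=
      ch_mono_succ (by omega) (by omega)
    have h3 := (all_n (α := α) V.card).2 ((a : ℤ) - 1) (b : ℤ) (by omega) (by omega) (by omega)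
      (by omega) (by omega) V A B rfl hA hB cA cB nA nB
      (by have e : (a : ℤ) - 1 + b + 1 = a + b := by ring
          rw [e]; exact hAB) (by linarith) h1.le
    unfold LL at h3
    have e : (a : ℤ) - 1 + 1 = a := by ring
    rw [e] at h3
    have hd : dd V.card (a : ℤ) = ch V.card a - ch V.card ((a : ℤ) - 1) := rfl
    have hd1 : 0 < dd V.card (a : ℤ) := dd_pos (by omega) (by omega)
    have hd2 : 0 ≤ dd V.card ((b : ℤ) + 1) := dd_nonneg (by omega)
    nlinarith
  · rw [← choose_mid hb2 hb]
    exact sperner_on hB cB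

/-- **The even half**: an antichain of diameter at most `2 s < n` has at most `C(n, s)`
members. -/
theorem even_half {V : Finset α} {F : Finset (Finset α)} (hF : On V F) (cF : AC F) {s : ℕ}
    (hs : 2 * s < V.card) (hFF : Cross (2 * (s : ℤ)) F F) : F.card ≤ V.card.choose s := by
  rcases F.eq_empty_or_nonempty with h | nF
  · subst h; simp
  by_contra hcon
  push Not at hcon
  have h1 : ch V.card (s : ℤ) < F.card := by
    rw [ch_natCast]; exact_mod_cast hcon
  have h2 : ch V.card ((s : ℤ) - 1) ≤ ch V.card (s : ℤ) :=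
    ch_mono_succ (by omega) (by omega)
  have h3 := (all_n (α := α) V.card).2 (s : ℤ) ((s : ℤ) - 1) (by omega) (by omega) (by omega)
    (by omega) (by omega) V F F rfl hF hF cF cF nF nF
    (by have e : (s : ℤ) + (s - 1) + 1 = 2 * s := by ring
        rw [e]; exact hFF) h1.le (by linarith)
  unfold LL at h3
  have e : (s : ℤ) - 1 + 1 = s := by ring
  rw [e] at h3
  have hd : dd V.card (s : ℤ) = ch V.card s - ch V.card ((s : ℤ) - 1) := rfl
  have hd1 : 0 < dd V.card (s : ℤ) := dd_pos (by omega) (by omega)
  have hd2 : 0 ≤ dd V.card ((s : ℤ) + 1) := dd_nonneg (by omega)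
  nlinarith

/-- **The odd half up to half a step**: an antichain of diameter at most `2 s + 1 < n` has at
most `(C(n, s) + C(n, s + 1)) / 2` members. -/
theorem odd_half {V : Finset α} {F : Finset (Finset α)} (hF : On V F) (cF : AC F) {s : ℕ}
    (hs : 2 * s + 1 < V.card) (hFF : Cross (2 * (s : ℤ) + 1) F F) :
    2 * F.card ≤ V.card.choose s + V.card.choose (s + 1) := by
  rcases F.eq_empty_or_nonempty with h | nF
  · subst h; simp
  by_cases hcon : F.card < V.card.choose s
  · have : V.card.choose s ≤ V.card.choose (s + 1) := by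
      have := ch_mono_succ (n := V.card) (b := (s : ℤ) + 1) (by omega) (by omega)
      have e : (s : ℤ) + 1 - 1 = s := by ring
      rw [e, ch_natCast] at this
      have e2 : ((s : ℤ) + 1) = ((s + 1 : ℕ) : ℤ) := by push_cast; ring
      rw [e2, ch_natCast] at this
      exact_mod_cast this
    omega
  push Not at hcon
  have h1 : ch V.card (s : ℤ) ≤ F.card := by
    rw [ch_natCast]; exact_mod_cast hcon
  have h3 := (all_n (α := α) V.card).2 (s : ℤ) (s : ℤ) (by omega) (by omega) (by omega)
    (by omega) (by omega) V F F rfl hF hF cF cF nF nF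
    (by have e : (s : ℤ) + s + 1 = 2 * s + 1 := by ring
        rw [e]; exact hFF) h1 h1
  unfold LL at h3
  have hd1 : 0 < dd V.card ((s : ℤ) + 1) := dd_pos (by omega) (by omega)
  have hd : dd V.card ((s : ℤ) + 1) = ch V.card ((s : ℤ) + 1) - ch V.card ((s : ℤ) + 1 - 1) := rfl
  have e : (s : ℤ) + 1 - 1 = s := by ring
  rw [e] at hd
  have h4 : 2 * ((F.card : ℤ) - ch V.card (s : ℤ)) - dd V.card ((s : ℤ) + 1) ≤ 0 := by
    nlinarith
  have e2 : ((s : ℤ) + 1) = ((s + 1 : ℕ) : ℤ) := by push_cast; ring
  rw [hd, e2, ch_natCast, ch_natCast] at h4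
  have h5 : 2 * (F.card : ℤ) ≤ (V.card.choose s : ℕ) + (V.card.choose (s + 1) : ℕ) := by
    linarith
  exact_mod_cast h5

end Pool.Agent.EH11
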