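import Pool.Agent.EH57.Arith

/-! Number lemmas of the even half (exact statements used by the assembly), proved by casting to
`Pool.Agent.EH57.Arith`. -/

namespace Pool.Agent.EH11

/-- binomial coefficient with integer lower index -/
def ch (n : ℕ) (i : ℤ) : ℤ := if 0 ≤ i then (n.choose i.toNat : ℤ) else 0

/-- difference of binomial coefficients -/
def dd (n : ℕ) (i : ℤ) : ℤ := ch n i - ch n (i - 1)

/-- the line through the vertices `P_a`, `P_(a+1)` -/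
def LL (n : ℕ) (a b u v : ℤ) : ℤ :=
  (u - ch n a) * dd n (b + 1) + (v - ch n b) * dd n (a + 1) - dd n (a + 1) * dd n (b + 1)

theorem LL_symm (n : ℕ) (a b u v : ℤ) : LL n a b u v = LL n b a v u := by
  unfold LL; ring

theorem cast_ch (n : ℕ) (i : ℤ) : ((ch n i : ℤ) : ℚ) = EH57.ch n i := by
  unfold ch EH57.ch
  split_ifs <;> simp

theorem cast_dd (n : ℕ) (i : ℤ) : ((dd n i : ℤ) : ℚ) = EH57.d n i := by
  unfold dd EH57.d
  rw [Int.cast_sub, cast_ch, cast_ch]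

theorem cast_LL (n : ℕ) (a b u v : ℤ) : ((LL n a b u v : ℤ) : ℚ) = EH57.LL n a b u v := by
  unfold LL EH57.LL
  push_cast
  rw [cast_ch, cast_ch, cast_dd, cast_dd]

theorem LL_of_Q {n : ℕ} {a b u v : ℤ} (h : EH57.LL n a b u v ≤ 0) : LL n a b u v ≤ 0 := by
  rw [← cast_LL] at h
  exact_mod_cast h

theorem Q_of_LL {n : ℕ} {a b u v : ℤ} (h : LL n a b u v ≤ 0) : EH57.LL n a b u v ≤ 0 := by
  rw [← cast_LL]
  exact_mod_cast h

theorem ch_le_Q {n : ℕ} {i u : ℤ} : EH57.ch n i ≤ (u : ℚ) ↔ ch n i ≤ u := by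
  rw [← cast_ch]; exact Int.cast_le

theorem ch_lt_Q {n : ℕ} {i u : ℤ} : (u : ℚ) < EH57.ch n i ↔ u < ch n i := by
  rw [← cast_ch]; exact Int.cast_lt

theorem Q_le_ch {n : ℕ} {i u : ℤ} : (u : ℚ) ≤ EH57.ch n i ↔ u ≤ ch n i := by
  rw [← cast_ch]; exact Int.cast_le

/-- (B0) empty second family -/
theorem num_B0 {n : ℕ} {a b : ℤ} (hb : 0 ≤ b) (hab : b ≤ a) (ha : 2 * (a + 1) ≤ n)
    (hreg : ((n : ℤ) - 1 - 2 * a) * (n - 1 - 2 * b) < n + 1) {u : ℤ}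
    (hu : u ≤ (n.choose (n / 2) : ℕ)) : LL n a b u 0 ≤ 0 := by
  apply LL_of_Q
  have h2 : EH57.ch n (((n / 2 : ℕ)) : ℤ) = (n.choose (n / 2) : ℚ) := EH57.ch_nat n (n / 2)
  have h1 := EH57.LL_cap (n := n) (a := a) (b := b) hb ⟨hab, hreg⟩ (by omega) (by omega)
    (i := ((n / 2 : ℕ) : ℤ)) (by omega) (by omega)
  rw [h2] at h1
  have h3 : (u : ℚ) ≤ (n.choose (n / 2) : ℚ) := by exact_mod_cast hu
  have h4 : 0 ≤ EH57.d n (b + 1) := EH57.d_nonneg (by omega)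
  have h5 : ((u : ℚ) - EH57.ch n a) * EH57.d n (b + 1)
      ≤ ((n.choose (n / 2) : ℚ) - EH57.ch n a) * EH57.d n (b + 1) :=
    mul_le_mul_of_nonneg_right (by linarith) h4
  unfold EH57.LL at h1 ⊢
  push_cast
  linarith

theorem ch_mid {N : ℕ} {a : ℤ} (h : 2 * (a + 1) = N + 1) :
    ch N a = (N.choose (N / 2) : ℕ) := by
  have h0 : 0 ≤ a := by omega
  unfold ch
  rw [if_pos h0]
  have : a.toNat = N / 2 := by omega
  rw [this]

theorem ch_pos {n : ℕ} {a : ℤ} (h0 : 0 ≤ a) (h1 : a ≤ n) : 1 ≤ ch n a := by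
  unfold ch
  rw [if_pos h0]
  have : 0 < n.choose a.toNat := Nat.choose_pos (by omega)
  exact_mod_cast this

theorem ch_succ (N : ℕ) (a : ℤ) : ch (N + 1) a = ch N a + ch N (a - 1) := by
  have h := EH57.ch_succ N a
  rw [← cast_ch, ← cast_ch, ← cast_ch] at h
  exact_mod_cast h

/-- (B1) -/
theorem num_B1 {N : ℕ} {a b : ℤ} (hb : 0 ≤ b) (hab : b ≤ a) (ha : 2 * (a + 1) ≤ N)
    {u0 u1 v0 v1 : ℤ} (h1 : u1 < ch N (a - 1)) (h0 : ch N a ≤ u0)
    (hL0 : LL N a b u0 v0 ≤ 0) (hL1 : LL N a (b - 1) u0 v1 ≤ 0) :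
    LL (N + 1) a b (u0 + u1) (v0 + v1) ≤ 0 := by
  apply LL_of_Q
  have f1 := Q_of_LL hL0
  have f2 := Q_of_LL hL1
  have g1 : (u1 : ℚ) < EH57.ch N (a - 1) := ch_lt_Q.2 h1
  have g0 : EH57.ch N a ≤ (u0 : ℚ) := ch_le_Q.2 h0
  have hz : 0 < EH57.d N (a + 1) := EH57.d_pos (by omega) ha
  have eb : 0 < EH57.d N (b + 1) := EH57.d_pos (by omega) (by omega)
  have ea0 : 0 < EH57.d N a := EH57.d_pos (by omega) (by omega)
  have eb0 : 0 < EH57.d N b := EH57.d_pos hb (by omega)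
  have hdb : EH57.ch N (b - 1) = EH57.ch N b - EH57.d N b := by unfold EH57.d; ring
  have e2 : b - 1 + 1 = b := by ring
  unfold EH57.LL at f1 f2
  rw [e2, hdb] at f2
  push_cast
  have e3 : EH57.LL (N + 1) a b ((u0 : ℚ) + u1) ((v0 : ℚ) + v1)
      = ((u0 : ℚ) + u1 - EH57.ch (N + 1) a) * (EH57.d N b + EH57.d N (b + 1))
        + ((v0 : ℚ) + v1 - EH57.ch (N + 1) b) * (EH57.d N a + EH57.d N (a + 1))
        - (EH57.d N a + EH57.d N (a + 1)) * (EH57.d N b + EH57.d N (b + 1)) := by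
    unfold EH57.LL
    rw [EH57.d_succ N (b + 1), EH57.d_succ N (a + 1)]
    have e1 : a + 1 - 1 = a := by ring
    have e2 : b + 1 - 1 = b := by ring
    rw [e1, e2]; ring
  have key : EH57.LL (N + 1) a b ((u0 : ℚ) + u1) ((v0 : ℚ) + v1) * EH57.d N (a + 1) ≤ 0 := by
    rw [e3]
    have hq : ((u0 : ℚ) + u1 - EH57.ch (N + 1) a) ≤ (u0 : ℚ) - EH57.ch N a := by
      rw [EH57.ch_succ]; linarith
    have hvv : ((v0 : ℚ) + v1 - EH57.ch (N + 1) b) * EH57.d N (a + 1)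
        ≤ (EH57.d N (a + 1) - ((u0 : ℚ) - EH57.ch N a)) * (EH57.d N b + EH57.d N (b + 1)) := by
      rw [EH57.ch_succ, hdb]; linarith
    have h6 := mul_le_mul_of_nonneg_right hvv
      (show 0 ≤ EH57.d N a + EH57.d N (a + 1) by linarith)
    have h7 := mul_le_mul_of_nonneg_right hq
      (show 0 ≤ (EH57.d N b + EH57.d N (b + 1)) * EH57.d N (a + 1) from
        mul_nonneg (by linarith) hz.le)
    have h8 : 0 ≤ ((u0 : ℚ) - EH57.ch N a) * (EH57.d N b + EH57.d N (b + 1)) * EH57.d N a :=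
      mul_nonneg (mul_nonneg (by linarith) (by linarith)) ea0.le
    nlinarith [h6, h7, h8]
  by_contra hcon
  push Not at hcon
  have := mul_pos hcon hz
  linarith

/-- (B2), Sperner case -/
theorem num_B2a {n : ℕ} {a b : ℤ} (hb : 0 ≤ b) (hab : b ≤ a) (ha : 2 * (a + 1) ≤ n)
    (h : n < 2 * (b + 2)) {u v : ℤ} (hu : u ≤ ch n a) (hv : v ≤ (n.choose (n / 2) : ℕ)) :
    LL n a b u v ≤ 0 := by
  apply LL_of_Q
  apply EH57.LL_small (by omega) (by omega) (Q_le_ch.2 hu)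
  apply Q_le_ch.2
  have : ch n (b + 1) = (n.choose (n / 2) : ℕ) := by
    unfold ch
    rw [if_pos (by omega)]
    have : (b + 1).toNat = n / 2 := by omega
    rw [this]
  rw [this]; exact hv

/-- (B2), sections; `v0` belongs to the family paired with `u0` -/
theorem num_B2b {N : ℕ} {a b : ℤ} (hb : 0 ≤ b) (hab : b ≤ a) (ha : 2 * (a + 1) ≤ N + 1)
    (hreg : ((N : ℤ) - 2 * a) * (N - 2 * b) < N + 2) {u0 u1 v0 v1 : ℤ}
    (h0 : ch N (a - 1) ≤ u0) (h1 : ch N (a - 1) ≤ u1) (hs : u0 + u1 < ch (N + 1) a)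
    (hL0 : ch N b ≤ v0 → LL N (a - 1) b u0 v0 ≤ 0)
    (hL1 : ch N b ≤ v1 → LL N (a - 1) b u1 v1 ≤ 0) :
    LL (N + 1) a b (u0 + u1) (v0 + v1) ≤ 0 := by
  apply LL_of_Q
  have hk : EH57.kappa N a b ≤ 0 :=
    EH57.kappa_nonpos (by omega) hb (by omega) (by omega) hreg.le
  have g0 : EH57.ch N (a - 1) ≤ (u0 : ℚ) := ch_le_Q.2 h0
  have g1 : EH57.ch N (a - 1) ≤ (u1 : ℚ) := ch_le_Q.2 h1
  have hu : (u0 : ℚ) + u1 < EH57.ch (N + 1) a := by
    have := ch_lt_Q.2 hs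
    push_cast at this
    exact this
  have eb : 0 ≤ EH57.d N (b + 1) := EH57.d_nonneg (by omega)
  have ea0 : 0 < EH57.d N a := EH57.d_pos (by omega) (by omega)
  have hda : EH57.ch N (a - 1) = EH57.ch N a - EH57.d N a := by unfold EH57.d; ring
  have e1 : a - 1 + 1 = a := by ring
  rw [EH57.ch_succ] at hu
  have q0 : ((u0 : ℚ) - EH57.ch N a) * EH57.d N (b + 1) + ((v0 : ℚ) - EH57.ch N b) * EH57.d N a ≤ 0 := by
    rcases le_or_gt (EH57.ch N b) (v0 : ℚ) with h | h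
    · have := Q_of_LL (hL0 (ch_le_Q.1 h))
      unfold EH57.LL at this; rw [e1, hda] at this; linarith
    · have a1 : ((u0 : ℚ) - EH57.ch N a) * EH57.d N (b + 1) ≤ 0 :=
        mul_nonpos_of_nonpos_of_nonneg (by linarith) eb
      have a2 : ((v0 : ℚ) - EH57.ch N b) * EH57.d N a ≤ 0 :=
        mul_nonpos_of_nonpos_of_nonneg (by linarith) ea0.le
      linarith
  have q1 : ((u1 : ℚ) - EH57.ch N a) * EH57.d N (b + 1) + ((v1 : ℚ) - EH57.ch N b) * EH57.d N a ≤ 0 := by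
    rcases le_or_gt (EH57.ch N b) (v1 : ℚ) with h | h
    · have := Q_of_LL (hL1 (ch_le_Q.1 h))
      unfold EH57.LL at this; rw [e1, hda] at this; linarith
    · have a1 : ((u1 : ℚ) - EH57.ch N a) * EH57.d N (b + 1) ≤ 0 :=
        mul_nonpos_of_nonpos_of_nonneg (by linarith) eb
      have a2 : ((v1 : ℚ) - EH57.ch N b) * EH57.d N a ≤ 0 :=
        mul_nonpos_of_nonpos_of_nonneg (by linarith) ea0.le
      linarith
  push_cast
  rw [EH57.LL_succ]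
  set p := ((u0 : ℚ) - EH57.ch N a) + ((u1 : ℚ) - EH57.ch N a) with hp
  set q := ((v0 : ℚ) - EH57.ch N b) + ((v1 : ℚ) - EH57.ch N b) with hq
  have hs' : p * EH57.d N (b + 1) + q * EH57.d N a ≤ 0 := by rw [hp, hq]; linarith
  have hp2 : p + EH57.d N a < 0 := by rw [hp]; linarith
  have ea' : 0 ≤ EH57.d N a + EH57.d N (a + 1) := by
    have := EH57.d_nonneg (n := N) (j := a + 1) (by omega)
    linarith
  have key : (p * (EH57.d N b + EH57.d N (b + 1)) + q * (EH57.d N a + EH57.d N (a + 1))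
      - EH57.kappa N a b) * EH57.d N a ≤ 0 := by
    have h2 : (p * EH57.d N (b + 1) + q * EH57.d N a) * (EH57.d N a + EH57.d N (a + 1)) ≤ 0 :=
      mul_nonpos_of_nonpos_of_nonneg hs' ea'
    have h3 : 0 ≤ EH57.kappa N a b * (p + EH57.d N a) := mul_nonneg_of_nonpos_of_nonpos hk hp2.le
    unfold EH57.kappa at *
    nlinarith [h2, h3]
  by_contra hcon
  push Not at hcon
  have := mul_pos hcon ea0
  linarith

/-- (B4) full levels -/
theorem num_B4 {n : ℕ} {a b : ℤ} (hb : 0 ≤ b) (hab : b ≤ a) (ha : 2 * (a + 1) ≤ n)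
    (hreg : ((n : ℤ) - 1 - 2 * a) * (n - 1 - 2 * b) < n + 1) {i j : ℕ} (hi : i ≤ n)
    (hj : j ≤ n) (hij1 : i + j ≤ n → (i + j : ℤ) ≤ a + b + 1)
    (hij2 : n ≤ i + j → 2 * (n : ℤ) ≤ a + b + 1 + i + j)
    (hu : ch n a ≤ (n.choose i : ℕ)) : LL n a b (n.choose i : ℕ) (n.choose j : ℕ) ≤ 0 := by
  apply LL_of_Q
  -- replace `i`, `j` by `i' = min i (n-i)`, `j' = min j (n-j)`
  obtain ⟨i', hi', hci, hi2⟩ : ∃ i' : ℕ, 2 * i' ≤ n ∧ n.choose i = n.choose i' ∧ (i' = i ∨ i' = n - i) := by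
    rcases le_or_gt (2 * i) n with h | h
    · exact ⟨i, h, rfl, Or.inl rfl⟩
    · exact ⟨n - i, by omega, (Nat.choose_symm hi).symm, Or.inr rfl⟩
  obtain ⟨j', hj', hcj, hj2⟩ : ∃ j' : ℕ, 2 * j' ≤ n ∧ n.choose j = n.choose j' ∧ (j' = j ∨ j' = n - j) := by
    rcases le_or_gt (2 * j) n with h | h
    · exact ⟨j, h, rfl, Or.inl rfl⟩
    · exact ⟨n - j, by omega, (Nat.choose_symm hj).symm, Or.inr rfl⟩
  have hsum : (i' : ℤ) + j' ≤ a + b + 1 := by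
    rcases le_total (i + j) n with h | h
    · have := hij1 h
      rcases hi2 with q | q <;> rcases hj2 with r | r <;> omega
    · have := hij2 h
      rcases hi2 with q | q <;> rcases hj2 with r | r <;> omega
  rw [hci] at hu
  rw [hci, hcj]
  have hai : a ≤ (i' : ℤ) := by
    by_contra hcon
    push Not at hcon
    have h1 : EH57.ch n (i' : ℤ) < EH57.ch n a := EH57.ch_strictMono (by omega) hcon (by omega)
    rw [EH57.ch_nat] at h1
    have h2 : EH57.ch n a ≤ ((n.choose i' : ℕ) : ℤ) := ch_le_Q.2 hu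
    push_cast at h2
    linarith
  have := EH57.LL_levels (n := n) hb ⟨hab, hreg⟩ (by omega) (by omega) hai
    (by exact_mod_cast hi') (show (0 : ℤ) ≤ j' by positivity) hsum
  rw [EH57.ch_nat, EH57.ch_nat] at this
  push_cast
  exact this

/-- (A) the convex case -/
theorem num_A {N : ℕ} {a b : ℤ} (ha0 : 0 ≤ a) (hb0 : 0 ≤ b) (ha : 2 * (a + 1) ≤ N + 1)
    (hb : 2 * (b + 1) ≤ N + 1) (hreg : N + 2 ≤ ((N : ℤ) - 2 * a) * (N - 2 * b))
    {u0 u1 v0 v1 : ℤ} (hu0 : 0 ≤ u0) (hu1 : 0 ≤ u1) (hv0 : 0 ≤ v0) (hv1 : 0 ≤ v1)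
    (hu : ch (N + 1) a ≤ u0 + u1) (hv : ch (N + 1) b ≤ v0 + v1)
    -- pairs at distance `D - 1`
    (h01 : 0 < u0 → 0 < v1 → ch N (a - 1) ≤ u0 → ch N b ≤ v1 → LL N (a - 1) b u0 v1 ≤ 0)
    (h10 : 0 < u1 → 0 < v0 → ch N (a - 1) ≤ u1 → ch N b ≤ v0 → LL N (a - 1) b u1 v0 ≤ 0)
    (h01' : 0 < u0 → 0 < v1 → ch N a ≤ u0 → ch N (b - 1) ≤ v1 → LL N a (b - 1) u0 v1 ≤ 0)
    (h10' : 0 < u1 → 0 < v0 → ch N a ≤ u1 → ch N (b - 1) ≤ v0 → LL N a (b - 1) u1 v0 ≤ 0)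
    -- pairs at distance `D`
    (h00 : 0 < u0 → 0 < v0 → ch N a ≤ u0 → ch N b ≤ v0 → LL N a b u0 v0 ≤ 0)
    (h11 : 0 < u1 → 0 < v1 → ch N a ≤ u1 → ch N b ≤ v1 → LL N a b u1 v1 ≤ 0) :
    LL (N + 1) a b (u0 + u1) (v0 + v1) ≤ 0 := by
  have conv : ∀ {a b u v : ℤ}, (0 < u → 0 < v → ch N a ≤ u → ch N b ≤ v → LL N a b u v ≤ 0) →
      EH57.SS N a b (u : ℚ) (v : ℚ) := by
    intro a b u v h q1 q2 q3 q4
    exact Q_of_LL (h (by exact_mod_cast q1) (by exact_mod_cast q2) (ch_le_Q.1 q3) (ch_le_Q.1 q4))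
  have ha3 : 2 * (a + 1) ≤ N := by
    by_contra hcon
    push Not at hcon
    have h2 : (N : ℤ) - 2 * a = 1 := by omega
    rw [h2] at hreg
    omega
  have hb3 : 2 * (b + 1) ≤ N := by
    by_contra hcon
    push Not at hcon
    have h2 : (N : ℤ) - 2 * b = 1 := by omega
    rw [h2] at hreg
    omega
  have hk : 0 ≤ EH57.kappa N a b := EH57.kappa_nonneg ha0 hb0 (by omega) (by omega) hreg
  have main := EH57.stepA ha0 hb0 ha3 hb3 hk (conv h01) (conv h10) (conv h01') (conv h10')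
    (conv h00) (conv h11)
  apply LL_of_Q
  push_cast
  have c1 := ch_le_Q.2 hu
  have c2 := ch_le_Q.2 hv
  have c3 : 0 < EH57.ch (N + 1) a := EH57.ch_pos ha0 (by push_cast; omega)
  have c4 : 0 < EH57.ch (N + 1) b := EH57.ch_pos hb0 (by push_cast; omega)
  push_cast at c1 c2
  exact main (by linarith) (by linarith) c1 c2

/-- the edge `a = -1` -/
theorem num_edge {n : ℕ} {b : ℤ} (hb1 : 1 ≤ b) (hb : 2 * (b + 1) ≤ n + 1) (hbn : b < n)
    {u v : ℤ} (hu : 1 ≤ u) (hv : ch n b ≤ v) (h : LL n 0 (b - 1) u v ≤ 0) :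
    LL n (-1) b u v ≤ 0 := by
  apply LL_of_Q
  have h1 : EH57.SS n 0 (b - 1) (u : ℚ) (v : ℚ) := fun _ _ _ _ => Q_of_LL h
  have hu' : (1 : ℚ) ≤ u := by exact_mod_cast hu
  have c1 := ch_le_Q.2 hv
  have c2 : 0 < EH57.ch n b := EH57.ch_pos (by omega) (by omega)
  exact EH57.SS_neg hb1 (by omega) hb hu' h1 (by linarith) (by linarith)
    (by rw [EH57.ch_neg (by omega)]; linarith) c1

/-- `2 (a + 1) = n + 1`: Sperner's theorem -/
theorem num_mid {n : ℕ} {a b : ℤ} (h : 2 * (a + 1) = n + 1) (hb0 : -1 ≤ b)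
    (hb : 2 * (b + 1) ≤ n + 1) {u v : ℤ} (hu : u ≤ (n.choose (n / 2) : ℕ)) :
    LL n a b u v ≤ 0 := by
  apply LL_of_Q
  apply EH57.LL_boundary h hb
  apply Q_le_ch.2
  rw [ch_mid h]; exact hu

theorem ch_mono_succ {n : ℕ} {b : ℤ} (hb0 : 0 ≤ b) (hb : 2 * b ≤ n + 1) :
    ch n (b - 1) ≤ ch n b := by
  have h : EH57.ch n (b - 1) ≤ EH57.ch n b := EH57.ch_mono (by omega) hb
  rw [← cast_ch, ← cast_ch] at h
  exact_mod_cast h

theorem dd_pos {n : ℕ} {j : ℤ} (h0 : 0 ≤ j) (h1 : 2 * j ≤ n) : 0 < dd n j := by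
  have h := EH57.d_pos h0 h1
  rw [← cast_dd] at h
  exact_mod_cast h

theorem dd_nonneg {n : ℕ} {j : ℤ} (h1 : 2 * j ≤ n + 1) : 0 ≤ dd n j := by
  have h := EH57.d_nonneg (n := n) (j := j) h1
  rw [← cast_dd] at h
  exact_mod_cast h

end Pool.Agent.EH11
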