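import Pool.Agent.EH11.Sections
import Pool.Agent.EH11.Num0
import Pool.Agent.EH14.Sort

/-!
# Two antichains of bounded cross distance: the local theorems `SS` and `LINE`
-/

namespace Pool.Agent.EH11

open Finset

variable {α : Type*} [DecidableEq α]

/-- the symmetric local statement -/
def SS (α : Type*) [DecidableEq α] (n : ℕ) (a b : ℤ) : Prop :=
  ∀ (V : Finset α) (A B : Finset (Finset α)), V.card = n → On V A → On V B → AC A → AC B →
    A.Nonempty → B.Nonempty → Cross (a + b + 1) A B →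
    ch n a ≤ A.card → ch n b ≤ B.card → LL n a b A.card B.card ≤ 0

/-- the statement in the concave regime; `B` may be empty -/
def LINE (α : Type*) [DecidableEq α] (n : ℕ) (a b : ℤ) : Prop :=
  ∀ (V : Finset α) (A B : Finset (Finset α)), V.card = n → On V A → On V B → AC A → AC B →
    Cross (a + b + 1) A B → ch n a ≤ A.card → LL n a b A.card B.card ≤ 0

/-- `LINE` for all parameters of the concave regime -/
def AllLine (α : Type*) [DecidableEq α] (n : ℕ) : Prop :=
  ∀ a b : ℤ, 0 ≤ b → b ≤ a → 2 * (a + 1) ≤ n →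
    ((n : ℤ) - 1 - 2 * a) * (n - 1 - 2 * b) < n + 1 → LINE α n a b

/-- `SS` for all parameters -/
def AllS (α : Type*) [DecidableEq α] (n : ℕ) : Prop :=
  ∀ a b : ℤ, -1 ≤ a → -1 ≤ b → 2 * (a + 1) ≤ n + 1 → 2 * (b + 1) ≤ n + 1 → a + b + 1 < n →
    SS α n a b

theorem card_sections (A : Finset (Finset α)) (x : α) :
    ((A.memberSubfamily x).card : ℤ) + ((A.nonMemberSubfamily x).card : ℤ) = A.card := by
  have := Finset.card_memberSubfamily_add_card_nonMemberSubfamily x A
  exact_mod_cast this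

/-- (B1), abstract form: `A0`, `A1` are the two sections of `A` in some order. -/
theorem b1_aux {N : ℕ} {a b : ℤ} (hb : 0 ≤ b) (hab : b ≤ a) (ha : 2 * (a + 1) ≤ N + 1)
    (hD : a + b + 1 < N) (hreg : ((N : ℤ) - 2 * a) * (N - 2 * b) < N + 2)
    (hLine : AllLine α N) {W : Finset α} (hW : W.card = N)
    {A0 A1 B0 B1 : Finset (Finset α)} (hA0 : On W A0) (hB0 : On W B0) (hB1 : On W B1)
    (cA0 : AC A0) (cB0 : AC B0) (cB1 : AC B1)
    (h00 : Cross (a + b + 1) A0 B0) (h01 : Cross (a + b) A0 B1)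
    (hu : ch (N + 1) a ≤ (A0.card : ℤ) + A1.card)
    (hL : 0 < LL (N + 1) a b ((A0.card : ℤ) + A1.card) ((B0.card : ℤ) + B1.card)) :
    ch N (a - 1) ≤ A1.card := by
  by_contra hcon
  push Not at hcon
  have hgt : ch N a < A0.card := by
    rw [ch_succ] at hu
    linarith
  by_cases hmid : 2 * (a + 1) = N + 1
  · have h1 := sperner_on hA0 cA0
    rw [hW] at h1
    have h2 : (A0.card : ℤ) ≤ (N.choose (N / 2) : ℕ) := by exact_mod_cast h1
    rw [← ch_mid hmid] at h2
    linarith
  · have ha' : 2 * (a + 1) ≤ N := by omega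
    have hb1 : 1 ≤ b := by
      by_contra hb1
      have hb0 : b = 0 := by omega
      subst hb0
      nlinarith
    have hr1 : ((N : ℤ) - 1 - 2 * a) * (N - 1 - 2 * b) < N + 1 := by nlinarith
    have hr2 : ((N : ℤ) - 1 - 2 * a) * (N - 1 - 2 * (b - 1)) < N + 1 := by nlinarith
    have k0 := hLine a b hb hab ha' hr1 W A0 B0 hW hA0 hB0 cA0 cB0 h00 hgt.le
    have k1 := hLine a (b - 1) (by omega) (by omega) ha' hr2 W A0 B1 hW hA0 hB1 cA0 cB1
      (by have : a + (b - 1) + 1 = a + b := by ring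
          rw [this]; exact h01) hgt.le
    have := num_B1 hb hab ha' hcon hgt.le k0 k1
    linarith

/-- (B1) for the two sections at a point. -/
theorem b1 {N : ℕ} {a b : ℤ} (hb : 0 ≤ b) (hab : b ≤ a) (ha : 2 * (a + 1) ≤ N + 1)
    (hD : a + b + 1 < N) (hreg : ((N : ℤ) - 2 * a) * (N - 2 * b) < N + 2)
    (hLine : AllLine α N) {V : Finset α} (hV : V.card = N + 1)
    {A B : Finset (Finset α)} (hA : On V A) (hB : On V B) (cA : AC A) (cB : AC B)
    (hAB : Cross (a + b + 1) A B) (hu : ch (N + 1) a ≤ A.card)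
    (hL : 0 < LL (N + 1) a b A.card B.card) {x : α} (hx : x ∈ V) :
    ch N (a - 1) ≤ (A.memberSubfamily x).card ∧
      ch N (a - 1) ≤ (A.nonMemberSubfamily x).card := by
  have hW : (V.erase x).card = N := by rw [card_erase_of_mem hx, hV]; rfl
  have sA := card_sections A x
  have sB := card_sections B x
  have e1 : a + b + 1 - 1 = a + b := by ring
  constructor
  · refine b1_aux hb hab ha hD hreg hLine hW (A0 := A.nonMemberSubfamily x)
      (B0 := B.nonMemberSubfamily x) (B1 := B.memberSubfamily x) (hA.nonMem x) (hB.nonMem x)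
      (hB.mem x) (cA.nonMem x) (cB.nonMem x) (cB.mem x) (hAB.non_non x) ?_ ?_ ?_
    · have := hAB.non_mem x
      rwa [e1] at this
    · linarith
    · have e2 : ((A.nonMemberSubfamily x).card : ℤ) + (A.memberSubfamily x).card = A.card := by
        linarith
      have e3 : ((B.nonMemberSubfamily x).card : ℤ) + (B.memberSubfamily x).card = B.card := by
        linarith
      rw [e2, e3]; exact hL
  · refine b1_aux hb hab ha hD hreg hLine hW (A0 := A.memberSubfamily x)
      (B0 := B.memberSubfamily x) (B1 := B.nonMemberSubfamily x) (hA.mem x) (hB.mem x)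
      (hB.nonMem x) (cA.mem x) (cB.mem x) (cB.nonMem x) (hAB.mem_mem x) ?_ ?_ ?_
    · have := hAB.mem_non x
      rwa [e1] at this
    · linarith
    · rw [sA, sB]; exact hL

theorem L_AC {V : Finset α} (x y : α) {A : Finset (Finset α)} (h : AC A) :
    AC (EH14.L V x y A) :=
  AC.of_isAntichain (EH14.L_antichain V x y h.isAntichain)

theorem L_Cross {V : Finset α} (x y : α) {D : ℤ} {A B : Finset (Finset α)}
    (h : Cross D A B) : Cross D (EH14.L V x y A) (EH14.L V y x B) := by
  intro X hX Y hY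
  have h1 := EH14.card_symmDiff_le x y X Y
  have h2 := h _ (EH14.mem_L.mp hX).2 _ (EH14.mem_L.mp hY).2
  exact le_trans (by exact_mod_cast h1) h2

/-- (B2): an outcome of `T_xy` with too small first family is harmless. -/
theorem b2 {N : ℕ} {a b : ℤ} (hb : 0 ≤ b) (hab : b ≤ a) (ha : 2 * (a + 1) ≤ N + 1)
    (hreg : ((N : ℤ) - 2 * a) * (N - 2 * b) < N + 2)
    (hLine : AllLine α N) (hS : AllS α N) {V : Finset α} (hV : V.card = N + 1)
    {A B : Finset (Finset α)} (hA : On V A) (hB : On V B) (cA : AC A) (cB : AC B)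
    (hAB : Cross (a + b + 1) A B) (hu : ch (N + 1) a ≤ A.card)
    (hL : 0 < LL (N + 1) a b A.card B.card) {x y : α} (hx : x ∈ V) (hy : y ∈ V)
    (hsmall : ((EH14.L V x y A).card : ℤ) < ch (N + 1) a) :
    LL (N + 1) a b (EH14.L V x y A).card (EH14.L V y x B).card ≤ 0 := by
  set A' := EH14.L V x y A with hA'
  set B' := EH14.L V y x B with hB'
  have oA' : On V A' := EH14.L_subset V x y A
  have oB' : On V B' := EH14.L_subset V y x B
  have cA' : AC A' := L_AC x y cA
  have cB' : AC B' := L_AC y x cB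
  have hAB' : Cross (a + b + 1) A' B' := L_Cross x y hAB
  have ha1 : 2 * (a + 1) ≤ ((N + 1 : ℕ) : ℤ) := by push_cast; exact ha
  by_cases hcase : ((N + 1 : ℕ) : ℤ) < 2 * (b + 2)
  · refine num_B2a hb hab ha1 hcase hsmall.le ?_
    have h1 := sperner_on oB' cB'
    rw [hV] at h1
    exact_mod_cast h1
  · push Not at hcase
    push_cast at hcase
    have hD : a + b + 1 < N := by omega
    have ha0 : 1 ≤ a := by
      by_contra h
      have h1 : a = 0 := by omega
      have h2 : b = 0 := by omega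
      subst h1; subst h2
      nlinarith
    have kx := b1 hb hab ha hD hreg hLine hV hA hB cA cB hAB hu hL hx
    have ky := b1 hb hab ha hD hreg hLine hV hA hB cA cB hAB hu hL hy
    have m1 : ((A'.memberSubfamily x).card : ℤ) = (A.memberSubfamily x).card := by
      rw [hA', EH14.L_card_memberSubfamily x y hA]
    have m0 : ((A'.nonMemberSubfamily x).card : ℤ) = (A.nonMemberSubfamily y).card := by
      rw [hA', EH14.L_card_nonMemberSubfamily hx hy hA]
    have g1 : ch N (a - 1) ≤ (A'.memberSubfamily x).card := by rw [m1]; exact kx.1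
    have g0 : ch N (a - 1) ≤ (A'.nonMemberSubfamily x).card := by rw [m0]; exact ky.2
    have hW : (V.erase x).card = N := by rw [card_erase_of_mem hx, hV]; rfl
    have sA := card_sections A' x
    have sB := card_sections B' x
    have hp : 1 ≤ ch N (a - 1) := ch_pos (by omega) (by omega)
    have hpb : 1 ≤ ch N b := ch_pos (by omega) (by omega)
    have e1 : a + b + 1 - 1 = a - 1 + b + 1 := by ring
    have hSS := hS (a - 1) b (by omega) (by omega) (by omega) (by omega) (by omega)
    have e2 : ((A'.memberSubfamily x).card : ℤ) + (A'.nonMemberSubfamily x).card = A'.card := sA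
    have e3 : ((B'.nonMemberSubfamily x).card : ℤ) + (B'.memberSubfamily x).card = B'.card := by
      linarith
    rw [← e2, ← e3]
    refine num_B2b hb hab ha hreg g1 g0 (by rw [e2]; exact hsmall) ?_ ?_
    · intro hv
      refine hSS (V.erase x) _ _ hW (oA'.mem x) (oB'.nonMem x) (cA'.mem x) (cB'.nonMem x)
        ?_ ?_ ?_ g1 hv
      · rw [← Finset.card_pos]; omega
      · rw [← Finset.card_pos]; omega
      · have := hAB'.mem_non x
        rwa [e1] at this
    · intro hv
      refine hSS (V.erase x) _ _ hW (oA'.nonMem x) (oB'.mem x) (cA'.nonMem x) (cB'.mem x)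
        ?_ ?_ ?_ g0 hv
      · rw [← Finset.card_pos]; omega
      · rw [← Finset.card_pos]; omega
      · have := hAB'.non_mem x
        rwa [e1] at this

/-- the functional is affine -/
theorem LL_mid (n : ℕ) (a b u1 u2 v1 v2 u v : ℤ) (hu : u1 + u2 = 2 * u) (hv : v1 + v2 = 2 * v) :
    LL n a b u1 v1 + LL n a b u2 v2 = 2 * LL n a b u v := by
  have h1 : u1 = 2 * u - u2 := by linarith
  have h2 : v1 = 2 * v - v2 := by linarith
  subst h1; subst h2
  unfold LL; ring

/-- the induction step for `LINE` -/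
theorem line_step {N : ℕ} (hLine : AllLine α N) (hS : AllS α N) : AllLine α (N + 1) := by
  intro a b hb hab ha hreg' V A B hV hA hB cA cB hAB hu
  by_contra hcon
  push Not at hcon
  have hreg : ((N : ℤ) - 2 * a) * (N - 2 * b) < N + 2 := by
    have e : (((N + 1 : ℕ) : ℤ) - 1 - 2 * a) * (((N + 1 : ℕ) : ℤ) - 1 - 2 * b) =
        ((N : ℤ) - 2 * a) * (N - 2 * b) := by push_cast; ring
    rw [e] at hreg'
    push_cast at hreg'
    linarith
  have ha' : 2 * (a + 1) ≤ (N : ℤ) + 1 := by push_cast at ha; exact ha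
  -- the maximum
  classical
  let Q : Finset (Finset (Finset α) × Finset (Finset α)) :=
    (V.powerset.powerset ×ˢ V.powerset.powerset).filter (fun p =>
      AC p.1 ∧ AC p.2 ∧ Cross (a + b + 1) p.1 p.2 ∧ ch (N + 1) a ≤ p.1.card)
  have hmem : ∀ p : Finset (Finset α) × Finset (Finset α), p ∈ Q ↔
      On V p.1 ∧ On V p.2 ∧ AC p.1 ∧ AC p.2 ∧ Cross (a + b + 1) p.1 p.2 ∧
        ch (N + 1) a ≤ p.1.card := by
    intro p
    simp only [Q, mem_filter, mem_product, mem_powerset]
    constructor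
    · rintro ⟨⟨h1, h2⟩, h3, h4, h5, h6⟩
      exact ⟨fun X hX => mem_powerset.mp (h1 hX), fun X hX => mem_powerset.mp (h2 hX),
        h3, h4, h5, h6⟩
    · rintro ⟨h1, h2, h3, h4, h5, h6⟩
      exact ⟨⟨fun X hX => mem_powerset.mpr (h1 X hX), fun X hX => mem_powerset.mpr (h2 X hX)⟩,
        h3, h4, h5, h6⟩
  have hne : Q.Nonempty := ⟨(A, B), (hmem (A, B)).mpr ⟨hA, hB, cA, cB, hAB, hu⟩⟩
  obtain ⟨⟨A₀, B₀⟩, hM, hmax⟩ := Q.exists_max_image
    (fun p => LL (N + 1) a b p.1.card p.2.card) hne
  set m := LL (N + 1) a b A₀.card B₀.card with hm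
  have hmpos : 0 < m := by
    have := hmax (A, B) ((hmem (A, B)).mpr ⟨hA, hB, cA, cB, hAB, hu⟩)
    exact lt_of_lt_of_le hcon this
  obtain ⟨oA₀, oB₀, cA₀, cB₀, hAB₀, hu₀⟩ := (hmem _).mp hM
  let P : Finset (Finset α) → Finset (Finset α) → Prop := fun A B =>
    On V A ∧ On V B ∧ AC A ∧ AC B ∧ Cross (a + b + 1) A B ∧ ch (N + 1) a ≤ A.card ∧
      LL (N + 1) a b A.card B.card = m
  have hclosed : ∀ A B x y, x ∈ V → y ∈ V → P A B →
      P (EH14.L V x y A) (EH14.L V y x B) := by
    rintro A B x y hx hy ⟨oA, oB, cA, cB, hAB, hu, hLm⟩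
    have hpos : 0 < LL (N + 1) a b A.card B.card := by rw [hLm]; exact hmpos
    have sumA : ((EH14.L V x y A).card : ℤ) + (EH14.L V y x A).card = 2 * A.card := by
      exact_mod_cast EH14.L_card_add hx hy oA
    have sumB : ((EH14.L V y x B).card : ℤ) + (EH14.L V x y B).card = 2 * B.card := by
      exact_mod_cast EH14.L_card_add hy hx oB
    have hsum := LL_mid (N + 1) a b _ _ _ _ _ _ sumA sumB
    rw [hLm] at hsum
    have le1 : ch (N + 1) a ≤ (EH14.L V x y A).card →
        LL (N + 1) a b (EH14.L V x y A).card (EH14.L V y x B).card ≤ m := by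
      intro h
      exact hmax (EH14.L V x y A, EH14.L V y x B) ((hmem _).mpr
        ⟨EH14.L_subset V x y A, EH14.L_subset V y x B, L_AC x y cA, L_AC y x cB,
          L_Cross x y hAB, h⟩)
    have le2 : ch (N + 1) a ≤ (EH14.L V y x A).card →
        LL (N + 1) a b (EH14.L V y x A).card (EH14.L V x y B).card ≤ m := by
      intro h
      exact hmax (EH14.L V y x A, EH14.L V x y B) ((hmem _).mpr
        ⟨EH14.L_subset V y x A, EH14.L_subset V x y B, L_AC y x cA, L_AC x y cB,
          L_Cross y x hAB, h⟩)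
    have g1 : ch (N + 1) a ≤ (EH14.L V x y A).card := by
      by_contra hlt
      push Not at hlt
      have k1 := b2 hb hab ha' hreg hLine hS hV oA oB cA cB hAB hu hpos hx hy hlt
      have k2 := le2 (by linarith)
      linarith
    have g2 : ch (N + 1) a ≤ (EH14.L V y x A).card := by
      by_contra hlt
      push Not at hlt
      have k1 := b2 hb hab ha' hreg hLine hS hV oA oB cA cB hAB hu hpos hy hx hlt
      have k2 := le1 g1
      linarith
    refine ⟨EH14.L_subset V x y A, EH14.L_subset V y x B, L_AC x y cA, L_AC y x cB,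
      L_Cross x y hAB, g1, ?_⟩
    have k1 := le1 g1
    have k2 := le2 g2
    linarith
  have hP₀ : P A₀ B₀ := ⟨oA₀, oB₀, cA₀, cB₀, hAB₀, hu₀, rfl⟩
  obtain ⟨A', B', ⟨oA', oB', cA', cB', hAB', hu', hL'⟩, hA', hB'⟩ :=
    EH14.levels_of_closed hclosed oA₀ oB₀ cA₀.isAntichain cB₀.isAntichain hP₀
  have hLpos : 0 < LL (N + 1) a b A'.card B'.card := by rw [hL']; exact hmpos
  have hchpos : 1 ≤ ch (N + 1) a := ch_pos (by omega) (by push_cast; omega)
  have hreg2 : (((N + 1 : ℕ) : ℤ) - 1 - 2 * a) * (((N + 1 : ℕ) : ℤ) - 1 - 2 * b) <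
      ((N + 1 : ℕ) : ℤ) + 1 := hreg'
  have hAne : A' ≠ ∅ := by
    rintro rfl
    rw [Finset.card_empty] at hu'
    push_cast at hu'
    linarith
  have hBne : B' ≠ ∅ := by
    rintro rfl
    rw [Finset.card_empty] at hLpos
    have h1 := sperner_on oA' cA'
    rw [hV] at h1
    have h2 : (A'.card : ℤ) ≤ ((N + 1).choose ((N + 1) / 2) : ℕ) := by exact_mod_cast h1
    have := num_B0 hb hab ha hreg2 h2
    push_cast at hLpos this
    linarith
  rcases hA' with hA' | ⟨i, hi, hA'⟩
  · exact hAne hA'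
  rcases hB' with hB' | ⟨j, hj, hB'⟩
  · exact hBne hB'
  have hDnn : 0 ≤ a + b + 1 := by omega
  obtain ⟨D, hD⟩ := Int.eq_ofNat_of_zero_le hDnn
  have hd : ∀ X ∈ powersetCard i V, ∀ Y ∈ powersetCard j V, (symmDiff X Y).card ≤ D := by
    intro X hX Y hY
    rw [← hA'] at hX
    rw [← hB'] at hY
    have := hAB' X hX Y hY
    rw [hD] at this
    exact_mod_cast this
  have hij := EH14.levels_dist hi hj hd
  have cardA : A'.card = (N + 1).choose i := by rw [hA', card_powersetCard, hV]
  have cardB : B'.card = (N + 1).choose j := by rw [hB', card_powersetCard, hV]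
  rw [cardA, cardB] at hLpos
  rw [cardA] at hu'
  rw [hV] at hi hj hij
  have := num_B4 hb hab ha hreg2 hi hj
    (fun h => by have := hij.1 h; rw [hD]; exact_mod_cast this)
    (fun h => by have := hij.2 h; rw [hD]; push_cast; exact_mod_cast this) hu'
  linarith

end Pool.Agent.EH11
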