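import Mathlib

/-!
# Sections of families of finite sets, cross distance, Sperner on a ground set
-/

namespace Pool.Agent.EH11

open Finset

variable {α : Type*} [DecidableEq α]

/-- all members are subsets of the ground set `V` -/
def On (V : Finset α) (A : Finset (Finset α)) : Prop := ∀ X ∈ A, X ⊆ V

/-- antichain for inclusion -/
def AC (A : Finset (Finset α)) : Prop := ∀ X ∈ A, ∀ Y ∈ A, X ⊆ Y → X = Y

/-- all cross distances are at most `D` -/
def Cross (D : ℤ) (A B : Finset (Finset α)) : Prop :=
  ∀ X ∈ A, ∀ Y ∈ B, ((symmDiff X Y).card : ℤ) ≤ D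

theorem AC.isAntichain {A : Finset (Finset α)} (h : AC A) :
    IsAntichain (· ⊆ ·) (A : Set (Finset α)) :=
  fun X hX Y hY hne hXY => hne (h X hX Y hY hXY)

theorem AC.of_isAntichain {A : Finset (Finset α)}
    (h : IsAntichain (· ⊆ ·) (A : Set (Finset α))) : AC A := by
  intro X hX Y hY hXY
  by_contra hne
  exact h hX hY hne hXY

theorem Cross.symm {D : ℤ} {A B : Finset (Finset α)} (h : Cross D A B) : Cross D B A := by
  intro X hX Y hY
  rw [symmDiff_comm]
  exact h Y hY X hX

theorem Cross.mono {D D' : ℤ} {A B : Finset (Finset α)} (h : Cross D A B) (hD : D ≤ D') :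
    Cross D' A B := fun X hX Y hY => (h X hX Y hY).trans hD

theorem Cross.nonneg {D : ℤ} {A B : Finset (Finset α)} (h : Cross D A B) (hA : A.Nonempty)
    (hB : B.Nonempty) : 0 ≤ D := by
  obtain ⟨X, hX⟩ := hA
  obtain ⟨Y, hY⟩ := hB
  exact le_trans (by positivity) (h X hX Y hY)

theorem On.mem {V : Finset α} {A : Finset (Finset α)} (h : On V A) (x : α) :
    On (V.erase x) (A.memberSubfamily x) := by
  intro X hX
  rw [mem_memberSubfamily] at hX
  have h1 := h _ hX.1
  intro y hy
  rw [mem_erase]
  refine ⟨?_, h1 (mem_insert_of_mem hy)⟩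
  rintro rfl
  exact hX.2 hy

theorem On.nonMem {V : Finset α} {A : Finset (Finset α)} (h : On V A) (x : α) :
    On (V.erase x) (A.nonMemberSubfamily x) := by
  intro X hX
  rw [mem_nonMemberSubfamily] at hX
  have h1 := h _ hX.1
  intro y hy
  rw [mem_erase]
  refine ⟨?_, h1 hy⟩
  rintro rfl
  exact hX.2 hy

theorem AC.mem {A : Finset (Finset α)} (h : AC A) (x : α) : AC (A.memberSubfamily x) := by
  intro X hX Y hY hXY
  rw [mem_memberSubfamily] at hX hY
  have h1 := h _ hX.1 _ hY.1 (insert_subset_insert x hXY)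
  have h2 := congrArg (fun s => erase s x) h1
  simpa [erase_insert hX.2, erase_insert hY.2] using h2

theorem AC.nonMem {A : Finset (Finset α)} (h : AC A) (x : α) :
    AC (A.nonMemberSubfamily x) := by
  intro X hX Y hY hXY
  rw [mem_nonMemberSubfamily] at hX hY
  exact h _ hX.1 _ hY.1 hXY

theorem symmDiff_insert_insert {x : α} {X Y : Finset α} (hX : x ∉ X) (hY : x ∉ Y) :
    symmDiff (insert x X) (insert x Y) = symmDiff X Y := by
  ext y
  simp only [mem_symmDiff, mem_insert]
  by_cases h : y = x
  · subst h; simp [hX, hY]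
  · simp [h]

theorem symmDiff_insert_left {x : α} {X Y : Finset α} (hX : x ∉ X) (hY : x ∉ Y) :
    symmDiff (insert x X) Y = insert x (symmDiff X Y) := by
  ext y
  simp only [mem_symmDiff, mem_insert]
  by_cases h : y = x
  · subst h; simp [hX, hY]
  · simp [h]

theorem Cross.mem_mem {D : ℤ} {A B : Finset (Finset α)} (h : Cross D A B) (x : α) :
    Cross D (A.memberSubfamily x) (B.memberSubfamily x) := by
  intro X hX Y hY
  rw [mem_memberSubfamily] at hX hY
  have h1 := h _ hX.1 _ hY.1
  rwa [symmDiff_insert_insert hX.2 hY.2] at h1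

theorem Cross.non_non {D : ℤ} {A B : Finset (Finset α)} (h : Cross D A B) (x : α) :
    Cross D (A.nonMemberSubfamily x) (B.nonMemberSubfamily x) := by
  intro X hX Y hY
  rw [mem_nonMemberSubfamily] at hX hY
  exact h _ hX.1 _ hY.1

theorem Cross.mem_non {D : ℤ} {A B : Finset (Finset α)} (h : Cross D A B) (x : α) :
    Cross (D - 1) (A.memberSubfamily x) (B.nonMemberSubfamily x) := by
  intro X hX Y hY
  rw [mem_memberSubfamily] at hX
  rw [mem_nonMemberSubfamily] at hY
  have h1 := h _ hX.1 _ hY.1
  rw [symmDiff_insert_left hX.2 hY.2, card_insert_of_notMem] at h1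
  · push_cast at h1
    linarith
  · simp [mem_symmDiff, hX.2, hY.2]

theorem Cross.non_mem {D : ℤ} {A B : Finset (Finset α)} (h : Cross D A B) (x : α) :
    Cross (D - 1) (A.nonMemberSubfamily x) (B.memberSubfamily x) :=
  (h.symm.mem_non x).symm

/-- **Sperner's theorem** on a ground set `V`. -/
theorem sperner_on {V : Finset α} {A : Finset (Finset α)} (hV : On V A) (hA : AC A) :
    A.card ≤ V.card.choose (V.card / 2) := by
  classical
  have hinj : Set.InjOn (fun X : Finset α => X.subtype (· ∈ V)) (A : Set (Finset α)) := by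
    intro X hX Y hY hXY
    ext y
    by_cases hy : y ∈ V
    · have := congrArg (fun s => (⟨y, hy⟩ : {z // z ∈ V}) ∈ s) hXY
      simpa using this
    · constructor
      · intro h; exact absurd (hV X hX h) hy
      · intro h; exact absurd (hV Y hY h) hy
  have h1 : (A.image (fun X : Finset α => X.subtype (· ∈ V))).card = A.card :=
    card_image_of_injOn hinj
  have h2 : IsAntichain (· ⊆ ·)
      ((A.image (fun X : Finset α => X.subtype (· ∈ V)) : Finset (Finset {z // z ∈ V})) :
        Set (Finset {z // z ∈ V})) := by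
    intro P hP Q hQ hne hPQ
    simp only [coe_image, Set.mem_image, mem_coe] at hP hQ
    obtain ⟨X, hX, rfl⟩ := hP
    obtain ⟨Y, hY, rfl⟩ := hQ
    apply hne
    have hXY : X ⊆ Y := by
      intro y hy
      have hyV := hV X hX hy
      have : (⟨y, hyV⟩ : {z // z ∈ V}) ∈ X.subtype (· ∈ V) := by simpa using hy
      simpa using hPQ this
    rw [hA X hX Y hY hXY]
  have h3 := h2.sperner
  rw [h1] at h3
  simpa using h3

theorem card_mem_le_sperner {V : Finset α} {A : Finset (Finset α)} {x : α} (hx : x ∈ V)
    (hV : On V A) (hA : AC A) :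
    (A.memberSubfamily x).card ≤ (V.card - 1).choose ((V.card - 1) / 2) := by
  have := sperner_on (hV.mem x) (hA.mem x)
  rwa [card_erase_of_mem hx] at this

theorem card_non_le_sperner {V : Finset α} {A : Finset (Finset α)} {x : α} (hx : x ∈ V)
    (hV : On V A) (hA : AC A) :
    (A.nonMemberSubfamily x).card ≤ (V.card - 1).choose ((V.card - 1) / 2) := by
  have := sperner_on (hV.nonMem x) (hA.nonMem x)
  rwa [card_erase_of_mem hx] at this

end Pool.Agent.EH11
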