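import Pool.Agent.EH11.Main

/-!
# The induction: `AllLine` and `AllS` for all `n`, and Theorem E
-/

namespace Pool.Agent.EH11

open Finset

variable {α : Type*} [DecidableEq α]

/-- `SS` with the two families exchanged -/
theorem SS.swap {n : ℕ} {a b : ℤ} (h : SS α n a b) : SS α n b a := by
  intro V A B hV hA hB cA cB nA nB hAB hu hv
  rw [LL_symm]
  refine h V B A hV hB hA cB cA nB nA ?_ hv hu
  have e : a + b + 1 = b + a + 1 := by ring
  rw [e]
  exact hAB.symm

theorem eq_of_cross_zero {A B : Finset (Finset α)} (h : Cross 0 A B) :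
    ∀ X ∈ A, ∀ Y ∈ B, X = Y := by
  intro X hX Y hY
  have h1 := h X hX Y hY
  have h2 : (symmDiff X Y).card = 0 := by omega
  rw [Finset.card_eq_zero] at h2
  exact symmDiff_eq_bot.mp h2

theorem card_le_one_of_cross_zero {A B : Finset (Finset α)} (h : Cross 0 A B)
    (hB : B.Nonempty) : A.card ≤ 1 := by
  obtain ⟨Y, hY⟩ := hB
  rw [Finset.card_le_one]
  intro X hX Z hZ
  rw [eq_of_cross_zero h X hX Y hY, eq_of_cross_zero h Z hZ Y hY]

/-- the case `a, b ≥ 0` -/
theorem s_step_nonneg {N : ℕ} (hLine : AllLine α (N + 1)) (hS : AllS α N) {a b : ℤ}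
    (ha0 : 0 ≤ a) (hb0 : 0 ≤ b) (ha : 2 * (a + 1) ≤ ((N + 1 : ℕ) : ℤ) + 1)
    (hb : 2 * (b + 1) ≤ ((N + 1 : ℕ) : ℤ) + 1) : SS α (N + 1) a b := by
  intro V A B hV hA hB cA cB nA nB hAB hu hv
  have spA : (A.card : ℤ) ≤ ((N + 1).choose ((N + 1) / 2) : ℕ) := by
    have := sperner_on hA cA
    rw [hV] at this
    exact_mod_cast this
  have spB : (B.card : ℤ) ≤ ((N + 1).choose ((N + 1) / 2) : ℕ) := by
    have := sperner_on hB cB
    rw [hV] at this
    exact_mod_cast this
  by_cases hma : 2 * (a + 1) = ((N + 1 : ℕ) : ℤ) + 1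
  · exact num_mid hma (by omega) hb spA
  by_cases hmb : 2 * (b + 1) = ((N + 1 : ℕ) : ℤ) + 1
  · rw [LL_symm]
    exact num_mid hmb (by omega) ha spB
  have ha1 : 2 * (a + 1) ≤ ((N + 1 : ℕ) : ℤ) := by omega
  have hb1 : 2 * (b + 1) ≤ ((N + 1 : ℕ) : ℤ) := by omega
  by_cases hreg : (((N + 1 : ℕ) : ℤ) - 1 - 2 * a) * (((N + 1 : ℕ) : ℤ) - 1 - 2 * b) <
      ((N + 1 : ℕ) : ℤ) + 1
  · rcases le_total b a with hab | hab
    · exact hLine a b hb0 hab ha1 hreg V A B hV hA hB cA cB hAB hu
    · rw [LL_symm]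
      refine hLine b a ha0 hab hb1 (by rw [mul_comm]; exact hreg) V B A hV hB hA cB cA ?_ hv
      have e : b + a + 1 = a + b + 1 := by ring
      rw [e]
      exact hAB.symm
  · push Not at hreg
    have e : (((N + 1 : ℕ) : ℤ) - 1 - 2 * a) * (((N + 1 : ℕ) : ℤ) - 1 - 2 * b) =
        ((N : ℤ) - 2 * a) * (N - 2 * b) := by push_cast; ring
    rw [e] at hreg
    push_cast at hreg ha1 hb1
    have hreg' : (N : ℤ) + 2 ≤ ((N : ℤ) - 2 * a) * (N - 2 * b) := by linarith
    have hD : a + b + 1 < N := by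
      by_contra hD
      push Not at hD
      have h1 : (N : ℤ) - 2 * a ≥ 1 := by linarith
      have h2 : (N : ℤ) - 2 * b ≥ 1 := by linarith
      have h3 : ((N : ℤ) - 2 * a) + (N - 2 * b) ≤ 2 := by linarith
      nlinarith
    -- a point of `V`
    have hVne : V.Nonempty := by rw [← Finset.card_pos, hV]; omega
    obtain ⟨x, hx⟩ := hVne
    have hW : (V.erase x).card = N := by rw [card_erase_of_mem hx, hV]; rfl
    have sA := card_sections A x
    have sB := card_sections B x
    have e1 : a + b + 1 - 1 = a - 1 + b + 1 := by ring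
    have e2 : a + b + 1 - 1 = a + (b - 1) + 1 := by ring
    have S1 := hS (a - 1) b (by omega) (by omega) (by omega) (by omega) (by omega)
    have S2 := hS a (b - 1) (by omega) (by omega) (by omega) (by omega) (by omega)
    have S3 := hS a b (by omega) (by omega) (by omega) (by omega) (by omega)
    have pos : ∀ C : Finset (Finset α), (0 : ℤ) < C.card → C.Nonempty := by
      intro C hC
      rw [← Finset.card_pos]
      exact_mod_cast hC
    rw [← sA, ← sB]
    refine num_A ha0 hb0 (by linarith) (by linarith) hreg' (Nat.cast_nonneg _)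
      (Nat.cast_nonneg _) (Nat.cast_nonneg _) (Nat.cast_nonneg _) (by rw [sA]; exact hu)
      (by rw [sB]; exact hv) ?_ ?_ ?_ ?_ ?_ ?_
    · intro p q r s
      refine S1 _ _ _ hW (hA.mem x) (hB.nonMem x) (cA.mem x) (cB.nonMem x) (pos _ p) (pos _ q)
        ?_ r s
      have := hAB.mem_non x
      rwa [e1] at this
    · intro p q r s
      refine S1 _ _ _ hW (hA.nonMem x) (hB.mem x) (cA.nonMem x) (cB.mem x) (pos _ p) (pos _ q)
        ?_ r s
      have := hAB.non_mem x
      rwa [e1] at this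
    · intro p q r s
      refine S2 _ _ _ hW (hA.mem x) (hB.nonMem x) (cA.mem x) (cB.nonMem x) (pos _ p) (pos _ q)
        ?_ r s
      have := hAB.mem_non x
      rwa [e2] at this
    · intro p q r s
      refine S2 _ _ _ hW (hA.nonMem x) (hB.mem x) (cA.nonMem x) (cB.mem x) (pos _ p) (pos _ q)
        ?_ r s
      have := hAB.non_mem x
      rwa [e2] at this
    · intro p q r s
      exact S3 _ _ _ hW (hA.mem x) (hB.mem x) (cA.mem x) (cB.mem x) (pos _ p) (pos _ q)
        (hAB.mem_mem x) r s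
    · intro p q r s
      exact S3 _ _ _ hW (hA.nonMem x) (hB.nonMem x) (cA.nonMem x) (cB.nonMem x) (pos _ p)
        (pos _ q) (hAB.non_non x) r s

/-- the case `a = -1` -/
theorem s_step_edge {n : ℕ} (h : ∀ a b : ℤ, 0 ≤ a → 0 ≤ b → 2 * (a + 1) ≤ (n : ℤ) + 1 →
      2 * (b + 1) ≤ (n : ℤ) + 1 → SS α n a b) {b : ℤ}
    (hb : 2 * (b + 1) ≤ (n : ℤ) + 1) (hn : 1 ≤ n) (hbn : b < n) : SS α n (-1) b := by
  intro V A B hV hA hB cA cB nA nB hAB hu hv
  have e : -1 + b + 1 = b := by ring
  rw [e] at hAB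
  have hb0 : 0 ≤ b := hAB.nonneg nA nB
  have uA : 1 ≤ A.card := nA.card_pos
  rcases eq_or_lt_of_le hb0 with h0 | h0
  · subst h0
    have hA1 : A.card ≤ 1 := card_le_one_of_cross_zero hAB nB
    have hB1 : B.card ≤ 1 := card_le_one_of_cross_zero hAB.symm nA
    have uB : 1 ≤ B.card := nB.card_pos
    have eA : A.card = 1 := le_antisymm hA1 uA
    have eB : B.card = 1 := le_antisymm hB1 uB
    rw [eA, eB]
    simp [LL, dd, ch]
  · refine num_edge (by omega) hb hbn (by exact_mod_cast uA) hv ?_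
    refine h 0 (b - 1) le_rfl (by omega) (by omega) (by omega) V A B hV hA hB cA cB nA nB ?_ ?_ ?_
    · have e' : 0 + (b - 1) + 1 = b := by ring
      rw [e']; exact hAB
    · simpa [ch] using uA
    · refine le_trans ?_ hv
      exact ch_mono_succ (by omega) (by omega)

/-- the induction step for `SS` -/
theorem s_step {N : ℕ} (hLine : AllLine α (N + 1)) (hS : AllS α N) : AllS α (N + 1) := by
  intro a b ha0 hb0 ha hb hD
  have hnn : ∀ a b : ℤ, 0 ≤ a → 0 ≤ b → 2 * (a + 1) ≤ ((N + 1 : ℕ) : ℤ) + 1 →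
      2 * (b + 1) ≤ ((N + 1 : ℕ) : ℤ) + 1 → SS α (N + 1) a b :=
    fun a b h1 h2 h3 h4 => s_step_nonneg hLine hS h1 h2 h3 h4
  rcases eq_or_lt_of_le ha0 with h | h
  · subst h
    exact s_step_edge hnn hb (by omega) (by omega)
  · rcases eq_or_lt_of_le hb0 with h' | h'
    · subst h'
      exact (s_step_edge hnn ha (by omega) (by omega)).swap
    · exact hnn a b (by omega) (by omega) ha hb

theorem all_zero : AllLine α 0 ∧ AllS α 0 := by
  constructor
  · intro a b hb hab ha
    exfalso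
    push_cast at ha
    omega
  · intro a b ha hb _ _ hD V A B hV hA hB cA cB nA nB hAB
    have := hAB.nonneg nA nB
    push_cast at hD
    omega

/-- `LINE` and `SS` hold for all `n`. -/
theorem all_n (n : ℕ) : AllLine α n ∧ AllS α n := by
  induction n with
  | zero => exact all_zero
  | succ N ih =>
    have h1 := line_step ih.1 ih.2
    exact ⟨h1, s_step h1 ih.2⟩

end Pool.Agent.EH11
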